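import Mathlib
import Pool.Graph.R_pool_sql_team_seeded_3997aac3.Q6.EV.Main

set_option autoImplicit false
set_option linter.unusedSectionVars false

/-!
# Value groups of equal order, apart from `V(-1)`: basic counts
-/

namespace Pool.Agent.H836.HC

open Finset
open Pool.Agent.H315R3.ETC Pool.Agent.TH673.VG Pool.Agent.Q6.EV

open Classical

noncomputable section

variable {S : QData} (h : IsQuat S) [Fintype S.G] {c : S.G}

include h in
theorem cap_mul (b b' : S.G) : V S b ∩ V S (b * b') = V S b ∩ V S b' := by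
  ext x
  rw [mem_inter, mem_inter]
  constructor
  · rintro ⟨e1, e2⟩
    refine ⟨e1, ?_⟩
    have := D_inf h b (b * b') (x := x) (mem_V.1 e1) (mem_V.1 e2)
    rw [← mul_assoc, h.exp2, one_mul] at this
    exact mem_V.2 this
  · rintro ⟨e1, e2⟩
    exact ⟨e1, mem_V.2 (D_inf h b b' (x := x) (mem_V.1 e1) (mem_V.1 e2))⟩

include h in
theorem neg_neg' (a : S.G) : c * (c * a) = a := by
  rw [← mul_assoc, h.exp2, one_mul]

include h in
theorem neg_ne_one {a : S.G} (ha : a ≠ c) : c * a ≠ 1 := fun e =>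
  ha (eq_of_mul h _ _ e).symm

include h in
theorem neg_ne_neg {a : S.G} (ha : a ≠ 1) : c * a ≠ c := fun e => by
  have := congrArg (fun x => c * x) e
  simp only [neg_neg' h, h.exp2] at this
  exact ha this

include h in
/-- the number of slots of a quaternion -/
theorem slots_le {t : S.Q} {a : S.G} (ha : a ∈ X S t) :
    (X S t).card ≤ 1 + ∑ z ∈ C S t a, ((V S z).card - 1) := by
  have h1 : X S t ⊆ insert a ((C S t a).biUnion fun z => (C S t z).erase a) := by
    intro b hb
    by_cases hab : b = a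
    · rw [hab]; exact mem_insert_self _ _
    · obtain ⟨z, e1, e2⟩ := exists_common h ha hb
      refine mem_insert_of_mem (mem_biUnion.2 ⟨z, mem_C.2 e1, mem_erase.2 ⟨hab, ?_⟩⟩)
      rw [mem_C, h.qs2]
      exact e2
  refine (card_le_card h1).trans ((card_insert_le _ _).trans ?_)
  rw [add_comm]
  refine Nat.add_le_add_left (card_biUnion_le.trans (sum_le_sum fun z hz => ?_)) _
  have hz1 : S.q z a = t := by rw [h.qs2]; exact mem_C.1 hz
  rw [card_erase_of_mem (mem_C.2 hz1), card_C h hz1]

include h in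
/-- the sum of the numbers of slots of the quaternions with slot `a` -/
theorem sum_slots (a : S.G) :
    ∑ t ∈ (Qs S a).erase S.zero, (X S t).card + Fintype.card S.G =
      ∑ b, (Qs S a ∩ Qs S b).card := by
  set T := (Qs S a).erase S.zero with hT
  have hf : ∀ b, (T.filter (fun t => b ∈ X S t)).card + 1 = (Qs S a ∩ Qs S b).card := by
    intro b
    have : T.filter (fun t => b ∈ X S t) = (Qs S a ∩ Qs S b).erase S.zero := by
      ext t
      rw [mem_filter, hT, mem_erase, mem_erase, mem_inter, mem_X, mem_Qs (a := b)]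
      tauto
    have h1 : S.zero ∈ Qs S a ∩ Qs S b := mem_inter.2 ⟨zero_mem_Qs h a, zero_mem_Qs h b⟩
    have h2 : 0 < (Qs S a ∩ Qs S b).card := card_pos.2 ⟨_, h1⟩
    rw [this, card_erase_of_mem h1]
    omega
  have hsum : ∑ t ∈ T, (X S t).card = ∑ b, (T.filter (fun t => b ∈ X S t)).card := by
    rw [← double T univ (fun t b => b ∈ X S t)]
    refine sum_congr rfl fun t _ => ?_
    congr 1
    ext b
    simp
  rw [hsum, ← sum_congr rfl (fun b _ => hf b), sum_add_distrib, sum_const, smul_eq_mul, mul_one,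
    card_univ]

include h in
theorem Qs_inter_one (a : S.G) : (Qs S a ∩ Qs S (1 : S.G)).card = 1 := by
  have e3 : Qs S a ∩ Qs S (1 : S.G) = {S.zero} := by
    rw [Qs_one h]
    ext t
    rw [mem_inter, mem_singleton]
    exact ⟨fun e => e.2, fun e => ⟨e ▸ zero_mem_Qs h a, e⟩⟩
  rw [e3, card_singleton]

include h in
theorem V_inter_one (a : S.G) : (V S a ∩ V S (1 : S.G)).card = (V S a).card := by
  rw [V_one h, inter_univ]

theorem one_mem_cap (h : IsQuat S) (a b : S.G) : 1 ≤ (V S a ∩ V S b).card :=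
  card_pos.2 ⟨1, mem_inter.2 ⟨one_mem_V h a, one_mem_V h b⟩⟩

/-- splitting off two elements -/
theorem sum_two {a b : S.G} (hab : a ≠ b) (f : S.G → ℕ) :
    ∑ x, f x = f a + f b + ∑ x ∈ univ.filter (fun x => x ≠ a ∧ x ≠ b), f x := by
  rw [← add_sum_erase univ _ (mem_univ a), ← add_sum_erase (univ.erase a) _
    (mem_erase.2 ⟨hab.symm, mem_univ b⟩), add_assoc]
  congr 2
  refine sum_congr ?_ fun _ _ => rfl
  ext x
  simp only [mem_erase, mem_univ, mem_filter, true_and, and_true]
  tauto

/-- splitting off four elements -/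
theorem sum_four {a b c d : S.G} (hab : a ≠ b) (hac : a ≠ c) (had : a ≠ d) (hbc : b ≠ c)
    (hbd : b ≠ d) (hcd : c ≠ d) (f : S.G → ℕ) :
    ∑ x, f x = f a + f b + f c + f d +
      ∑ x ∈ univ.filter (fun x => x ≠ a ∧ x ≠ b ∧ x ≠ c ∧ x ≠ d), f x := by
  rw [← add_sum_erase univ _ (mem_univ a), ← add_sum_erase (univ.erase a) _
    (mem_erase.2 ⟨hab.symm, mem_univ b⟩), ← add_sum_erase ((univ.erase a).erase b) _
    (mem_erase.2 ⟨hbc.symm, mem_erase.2 ⟨hac.symm, mem_univ c⟩⟩),
    ← add_sum_erase (((univ.erase a).erase b).erase c) _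
    (mem_erase.2 ⟨hcd.symm, mem_erase.2 ⟨hbd.symm, mem_erase.2 ⟨had.symm, mem_univ d⟩⟩⟩),
    ← add_assoc, ← add_assoc, ← add_assoc]
  congr 1
  refine sum_congr ?_ fun _ _ => rfl
  ext x
  simp only [mem_erase, mem_univ, mem_filter, true_and, and_true]
  tauto

end

end Pool.Agent.H836.HC
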