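import Mathlib
import Pool.Agent.H836.HC.PartB

set_option autoImplicit false
set_option linter.unusedSectionVars false

/-!
# The case `|V(-1)| > |V(a)|`: conclusion
-/

namespace Pool.Agent.H836.HC

open Finset
open Pool.Agent.H315R3.ETC Pool.Agent.TH673.VG Pool.Agent.Q6.EV

open Classical

noncomputable section

variable {S : QData} (h : IsQuat S) [Fintype S.G]
variable {c : S.G} {v : ℕ} (hv : ∀ a : S.G, a ≠ 1 → a ≠ c → (V S a).card = v)

theorem key3 {f r v : ℕ} (e : f * r = v) : 4 * (v : ℤ) ≤ v * (f : ℤ) + 4 * (r : ℤ) := by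
  have e1 : (f : ℤ) * r = v := by exact_mod_cast e
  have e2 : 0 ≤ (r : ℤ) * ((f : ℤ) - 2) ^ 2 := mul_nonneg (by positivity) (sq_nonneg _)
  have e3 : (r : ℤ) * ((f : ℤ) - 2) ^ 2 = v * f + 4 * r - 4 * v := by
    rw [← e1]; ring
  linarith

theorem key1 {f r v : ℕ} (e : f * r = v) (h1 : 1 ≤ r) :
    3 * (v : ℤ) - v * (r : ℤ) ≤ 2 * (f : ℤ) := by
  have e1 : (f : ℤ) * r = v := by exact_mod_cast e
  have e4 : 0 ≤ ((r : ℤ) - 1) * (r - 2) := by
    rcases (by omega : r = 1 ∨ 2 ≤ r) with e5 | e5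
    · rw [e5]; norm_num
    · have e6 : (2 : ℤ) ≤ r := by exact_mod_cast e5
      exact mul_nonneg (by linarith) (by linarith)
  have e5 : 0 ≤ (f : ℤ) * (((r : ℤ) - 1) * (r - 2)) := mul_nonneg (by positivity) e4
  have e6 : (f : ℤ) * (((r : ℤ) - 1) * (r - 2)) = 2 * f - (3 * v - v * r) := by
    rw [← e1]; ring
  linarith

theorem key2 {f r v l : ℕ} (e : f * r = v) (h1 : r = l ∨ 2 * l ≤ r) :
    3 * (l : ℤ) * (v : ℤ) - v * (r : ℤ) ≤ 2 * (l : ℤ) ^ 2 * (f : ℤ) := by
  have e1 : (f : ℤ) * r = v := by exact_mod_cast e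
  have e4 : 0 ≤ ((r : ℤ) - l) * (r - 2 * l) := by
    rcases h1 with e5 | e5
    · rw [e5, sub_self, zero_mul]
    · have e6 : 2 * (l : ℤ) ≤ r := by exact_mod_cast e5
      have e7 : (0 : ℤ) ≤ l := by positivity
      exact mul_nonneg (by linarith) (by linarith)
  have e5 : 0 ≤ (f : ℤ) * (((r : ℤ) - l) * (r - 2 * l)) := mul_nonneg (by positivity) e4
  have e6 : (f : ℤ) * (((r : ℤ) - l) * (r - 2 * l)) =
      2 * (l : ℤ) ^ 2 * f - (3 * l * v - v * r) := by
    rw [← e1]; ring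
  linarith

include h hv in
theorem partB (hne : c ≠ 1) {k l j N : ℕ} (hk : v = 2 ^ k) (hv4 : 4 ≤ v)
    (hl : N = 2 ^ l) (hNv : N * v = Fintype.card S.G) (hN : 2 * v ≤ N)
    (hj : (V S c).card = 2 ^ j) (hvw : 2 * v ≤ (V S c).card)
    (hwG : 2 * (V S c).card ≤ Fintype.card S.G) : False := by
  obtain ⟨w, hw⟩ : ∃ w, w = (V S c).card := ⟨_, rfl⟩
  obtain ⟨M, hM⟩ : ∃ M, M = (Qs S c).card := ⟨_, rfl⟩
  rw [← hw] at hj hvw hwG
  have hMw : M * w = N * v := by rw [hM, hw, card_Qs h, hNv]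
  obtain ⟨B, hB⟩ : ∃ B : Finset S.G, B = univ.filter (fun x => x ≠ 1 ∧ x ≠ c) := ⟨_, rfl⟩
  have hM0 : 1 ≤ M := by rw [hM]; exact card_pos.2 ⟨_, zero_mem_Qs h _⟩
  obtain ⟨x, hx⟩ : ∃ x, x = ∑ b ∈ B, (Qs S c ∩ Qs S b).card := ⟨_, rfl⟩
  obtain ⟨P, hP⟩ : ∃ P, P = ∑ b ∈ B, (V S c ∩ V S b).card := ⟨_, rfl⟩
  have hxz : (x : ℤ) = ∑ b ∈ B, ((Qs S c ∩ Qs S b).card : ℤ) := by
    rw [hx]; push_cast; rfl
  have hPz : (P : ℤ) = ∑ b ∈ B, ((V S c ∩ V S b).card : ℤ) := by
    rw [hP]; push_cast; rfl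
  have zM : ((M - 1 : ℕ) : ℤ) = (M : ℤ) - 1 := by rw [Nat.cast_sub hM0]; norm_num
  have zv : ((v - 1 : ℕ) : ℤ) = (v : ℤ) - 1 := by rw [Nat.cast_sub (by omega)]; norm_num
  have z0 : (M : ℤ) * w = N * v := by exact_mod_cast hMw
  have z1 : (4 : ℤ) ≤ v := by exact_mod_cast hv4
  have z2 : 2 * (v : ℤ) ≤ w := by exact_mod_cast hvw
  have z3 : 2 * (v : ℤ) ≤ N := by exact_mod_cast hN
  have z4 : 2 * (w : ℤ) ≤ N * v := by
    rw [← hNv] at hwG
    exact_mod_cast hwG
  by_cases hcase : v * (v - 1) ≤ w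
  · obtain ⟨hBc, d1, d2, d3⟩ := partB_data h hv hne hw hM (by omega) hcase le_rfl hB
    rw [← hNv] at hBc d1 d2
    rw [← hP] at d1
    rw [← hx] at d2
    have zK : (B.card : ℤ) = N * v - 2 := by
      have : ((B.card + 2 : ℕ) : ℤ) = ((N * v : ℕ) : ℤ) := by rw [hBc]
      push_cast at this
      linarith
    have zP : (P : ℤ) + 2 * v + w ≤ N * v + w * v := by exact_mod_cast d1
    have zx : (x : ℤ) + M + 1 ≤ (M - 1) * (1 + w) + N * v := by
      have : ((x + M + 1 : ℕ) : ℤ) ≤ (((M - 1) * (1 + w) + N * v : ℕ) : ℤ) := by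
        exact_mod_cast d2
      push_cast at this
      rw [zM] at this
      exact this
    have hkey := sum_le_sum (fun b hb => key3 (d3 b hb))
    rw [sum_add_distrib, sum_const, nsmul_eq_mul, ← mul_sum, ← mul_sum, ← hxz, ← hPz] at hkey
    exact numB3 z1 z0 z4 zK zP zx (by linarith) (by nlinarith)
  · obtain ⟨hBc, d1, d2, d3⟩ := partB_data h hv hne hw hM (by omega) le_rfl (by omega) hB
    rw [← hNv] at hBc d1 d2
    rw [← hP] at d1
    rw [← hx] at d2
    have zK : (B.card : ℤ) = N * v - 2 := by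
      have : ((B.card + 2 : ℕ) : ℤ) = ((N * v : ℕ) : ℤ) := by rw [hBc]
      push_cast at this
      linarith
    have zP : (P : ℤ) + 2 * v + w ≤ N * v + w * v := by exact_mod_cast d1
    have zx : (x : ℤ) + M + 1 ≤ (M - 1) * (1 + v * (v - 1)) + N * v := by
      have : ((x + M + 1 : ℕ) : ℤ) ≤ (((M - 1) * (1 + v * (v - 1)) + N * v : ℕ) : ℤ) := by
        exact_mod_cast d2
      push_cast at this
      rw [zM, zv] at this
      exact this
    by_cases hwN : w ≤ N
    · have hkey := sum_le_sum (fun b hb => key1 (d3 b hb) (one_mem_cap h c b))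
      rw [sum_sub_distrib, sum_const, nsmul_eq_mul, ← mul_sum, ← mul_sum, ← hxz, ← hPz] at hkey
      exact numB1 z1 z0 z2 (by exact_mod_cast hwN) zK zP zx (by linarith)
    · have hlj : l < j := by
        by_contra hc
        exact hwN (by rw [hj, hl]; exact Nat.pow_le_pow_right (by norm_num) (by omega))
      obtain ⟨i, hi⟩ : ∃ i, i = j - l := ⟨_, rfl⟩
      have hi1 : 1 ≤ i := by omega
      obtain ⟨m, hm⟩ : ∃ m, m = 2 ^ i := ⟨_, rfl⟩
      have hwm : w = m * N := by rw [hj, hm, hl, hi, ← pow_add]; congr 1; omega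
      have hm2 : 2 ≤ m := by
        rw [hm]
        calc 2 = 2 ^ 1 := (pow_one 2).symm
          _ ≤ 2 ^ i := Nat.pow_le_pow_right (by norm_num) hi1
      have hN0 : 0 < N := by rw [hl]; positivity
      have hvm : v = m * M := by
        have : N * v = N * (m * M) := by rw [← hMw, hwm]; ring
        exact Nat.eq_of_mul_eq_mul_left hN0 this
      have hM2 : 2 ≤ M := by
        by_contra hc
        have : M = 1 := by omega
        rw [this, one_mul] at hMw
        omega
      have hr : ∀ b ∈ B, (V S c ∩ V S b).card = m ∨ 2 * m ≤ (V S c ∩ V S b).card := by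
        intro b hb
        have e1 := d3 b hb
        have e2 : (Qs S c ∩ Qs S b).card ≤ M := by
          rw [hM]; exact card_le_card inter_subset_left
        have e3 : m ≤ (V S c ∩ V S b).card := by
          by_contra hc
          push Not at hc
          have : (Qs S c ∩ Qs S b).card * (V S c ∩ V S b).card < M * m := by
            calc (Qs S c ∩ Qs S b).card * (V S c ∩ V S b).card
                ≤ M * (V S c ∩ V S b).card := Nat.mul_le_mul_right _ e2
              _ < M * m := (Nat.mul_lt_mul_left (by omega)).2 hc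
          rw [e1, hvm, mul_comm] at this
          exact lt_irrefl _ this
        obtain ⟨s, _, hs⟩ := (Nat.dvd_prime_pow Nat.prime_two).1
          (show (V S c ∩ V S b).card ∣ 2 ^ k from hk ▸ Dvd.intro_left _ e1)
        rw [hs, hm] at e3
        have e4 : i ≤ s := (Nat.pow_le_pow_iff_right (by norm_num)).1 e3
        rcases (by omega : s = i ∨ i + 1 ≤ s) with e5 | e5
        · left; rw [hs, hm, e5]
        · right
          rw [hs, hm]
          calc 2 * 2 ^ i = 2 ^ (i + 1) := by rw [pow_succ]; ring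
            _ ≤ 2 ^ s := Nat.pow_le_pow_right (by norm_num) e5
      have hkey := sum_le_sum (fun b hb => key2 (d3 b hb) (hr b hb))
      rw [sum_sub_distrib, sum_const, nsmul_eq_mul, ← mul_sum, ← mul_sum, ← hxz, ← hPz] at hkey
      exact numB2 (l := m) (by exact_mod_cast hm2) (by exact_mod_cast hM2) (by exact_mod_cast hvm)
        (by exact_mod_cast hwm) z3 zK zP zx (by linarith)

end

end Pool.Agent.H836.HC
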