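import Mathlib
import Pool.Graph.R_seed8.TH673.VG.FieldDefs

set_option autoImplicit false
set_option linter.unusedSectionVars false

/-!
# The number of square classes of a quadratic extension
-/

namespace Pool.Agent.H836.HC

open Pool.Agent.TH673.VG Pool.Agent.TH188.ET

/-- the subgroup of the squares of the nonzero elements of a field -/
def sqs (K : Type*) [Field K] : Subgroup Kˣ := (powMonoidHom 2 : Kˣ →* Kˣ).range

/-- the number of square classes `|K*/K*²|` of a field (zero if it is infinite) -/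
noncomputable def sqClasses (K : Type*) [Field K] : ℕ := (sqs K).index

theorem mem_sqs {K : Type*} [Field K] {x : Kˣ} : x ∈ sqs K ↔ ∃ y : Kˣ, x = y ^ 2 :=
  ⟨fun ⟨y, hy⟩ => ⟨y, hy.symm⟩, fun ⟨y, hy⟩ => ⟨y, hy.symm⟩⟩

theorem sqClasses_congr {K L : Type*} [Field K] [Field L] (e : K ≃+* L) :
    sqClasses K = sqClasses L := by
  have h : (sqs K).map (Units.mapEquiv (e : K ≃* L) : Kˣ →* Lˣ) = sqs L := by
    ext x
    rw [Subgroup.mem_map, mem_sqs]
    constructor
    · rintro ⟨y, hy, rfl⟩
      obtain ⟨z, rfl⟩ := mem_sqs.1 hy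
      exact ⟨_, map_pow _ z 2⟩
    · rintro ⟨y, rfl⟩
      refine ⟨(Units.mapEquiv (e : K ≃* L)).symm y ^ 2, mem_sqs.2 ⟨_, rfl⟩, ?_⟩
      rw [map_pow]
      congr 1
      exact (Units.mapEquiv (e : K ≃* L)).apply_symm_apply y
  rw [sqClasses, sqClasses, ← h, Subgroup.index_map_equiv]

section model

variable {F : Type*} [Field F] (a : Fˣ) [Hab : Fact (∀ r : F, r ^ 2 ≠ (a : F) + 0 * r)]

/-- the field `F(√a)` -/
abbrev QE (a : Fˣ) : Type _ := QuadraticAlgebra F (a : F) 0

/-- the inclusion -/
def inc : Fˣ →* (QE a)ˣ := Units.map (algebraMap F (QE a) : F →* QE a)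

/-- the norm -/
def nrm : (QE a)ˣ →* Fˣ := Units.map (QuadraticAlgebra.norm : QE a →* F)

theorem val_inc (u : Fˣ) : ((inc a u : (QE a)ˣ) : QE a) = algebraMap F (QE a) u := rfl

theorem val_nrm (z : (QE a)ˣ) : ((nrm a z : Fˣ) : F) = QuadraticAlgebra.norm (z : QE a) := rfl

theorem range_nrm : (nrm a).range = normGroup a := by
  ext c
  constructor
  · rintro ⟨z, rfl⟩
    refine ⟨(z : QE a).re, (z : QE a).im, ?_⟩
    rw [val_nrm, QuadraticAlgebra.norm_def]
    ring
  · rintro ⟨x, y, hxy⟩
    have hn : QuadraticAlgebra.norm (⟨x, y⟩ : QE a) = (c : F) := by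
      rw [QuadraticAlgebra.norm_def, hxy]
      ring
    have hu : IsUnit (⟨x, y⟩ : QE a) := by
      rw [QuadraticAlgebra.isUnit_iff_norm_isUnit, hn]
      exact c.isUnit
    obtain ⟨z, hz⟩ := hu
    refine ⟨z, Units.ext ?_⟩
    rw [val_nrm, hz, hn]

theorem comap_nrm : (sqs F).comap (nrm a) = (inc a).range ⊔ sqs (QE a) := by
  apply le_antisymm
  · intro z hz
    obtain ⟨c, hc⟩ := mem_sqs.1 hz
    have hc' : QuadraticAlgebra.norm (z : QE a) = (c : F) ^ 2 := by
      rw [← val_nrm, hc]
      rfl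
    by_cases h0 : (z : QE a) + algebraMap F (QE a) c = 0
    · refine Subgroup.mem_sup_left ⟨-c, Units.ext ?_⟩
      rw [val_inc, Units.val_neg, map_neg]
      exact (eq_neg_of_add_eq_zero_left h0).symm
    · -- `(z + c)² = z (tr z + 2 c)`
      set t : F := 2 * (z : QE a).re + 2 * c with ht
      have hsq : ((z : QE a) + algebraMap F (QE a) c) ^ 2 = algebraMap F (QE a) t * z := by
        rw [QuadraticAlgebra.norm_def] at hc'
        rw [pow_two]
        apply QuadraticAlgebra.ext
        · simp only [QuadraticAlgebra.re_mul, QuadraticAlgebra.re_add, QuadraticAlgebra.im_add,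
            QuadraticAlgebra.algebraMap_re, QuadraticAlgebra.algebraMap_im, ht]
          linear_combination -hc'
        · simp only [QuadraticAlgebra.im_mul, QuadraticAlgebra.re_add, QuadraticAlgebra.im_add,
            QuadraticAlgebra.algebraMap_re, QuadraticAlgebra.algebraMap_im, ht]
          ring
      have ht0 : t ≠ 0 := by
        intro e
        rw [e, map_zero, zero_mul] at hsq
        exact h0 (pow_eq_zero_iff (two_ne_zero) |>.1 hsq)
      have e1 : z = inc a (Units.mk0 t ht0)⁻¹ * (Units.mk0 _ h0) ^ 2 := by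
        rw [map_inv, eq_inv_mul_iff_mul_eq]
        apply Units.ext
        rw [Units.val_mul, val_inc, Units.val_pow_eq_pow_val, Units.val_mk0, Units.val_mk0, hsq]
      rw [e1]
      exact Subgroup.mul_mem_sup ⟨_, rfl⟩ (mem_sqs.2 ⟨_, rfl⟩)
  · rw [sup_le_iff]
    constructor
    · rintro _ ⟨u, rfl⟩
      refine mem_sqs.2 ⟨u, Units.ext ?_⟩
      rw [val_nrm, val_inc, QuadraticAlgebra.norm_algebraMap]
      rfl
    · intro z hz
      obtain ⟨w, rfl⟩ := mem_sqs.1 hz
      exact mem_sqs.2 ⟨nrm a w, map_pow _ _ _⟩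

theorem two_index (h2 : (2 : F) ≠ 0) : 2 * ((sqs (QE a)).comap (inc a)).index = sqClasses F := by
  have hle : sqs F ≤ (sqs (QE a)).comap (inc a) := by
    intro u hu
    obtain ⟨v, rfl⟩ := mem_sqs.1 hu
    exact mem_sqs.2 ⟨inc a v, map_pow _ _ _⟩
  rw [sqClasses, ← Subgroup.relIndex_mul_index hle]
  congr 1
  symm
  rw [Subgroup.relIndex_eq_two_iff]
  have ha : a ∉ sqs F := by
    intro h
    obtain ⟨r, hr⟩ := mem_sqs.1 h
    exact Hab.out r (by rw [hr, zero_mul, add_zero]; rfl)
  refine ⟨a, ?_, fun u hu => ?_⟩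
  · have h0 : (QuadraticAlgebra.omega : QE a) ≠ 0 := by
      intro e
      have := congrArg QuadraticAlgebra.im e
      rw [QuadraticAlgebra.omega_im, QuadraticAlgebra.im_zero] at this
      exact one_ne_zero this
    refine mem_sqs.2 ⟨Units.mk0 QuadraticAlgebra.omega h0, Units.ext ?_⟩
    rw [val_inc, Units.val_pow_eq_pow_val, Units.val_mk0, pow_two,
      QuadraticAlgebra.omega_mul_omega_eq_mk]
    rfl
  · obtain ⟨w, hw⟩ := mem_sqs.1 hu
    have hw' : algebraMap F (QE a) u = (w : QE a) * w := by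
      rw [← val_inc, hw, pow_two]
      rfl
    have e1 := congrArg QuadraticAlgebra.re hw'
    have e2 := congrArg QuadraticAlgebra.im hw'
    rw [QuadraticAlgebra.algebraMap_re, QuadraticAlgebra.re_mul] at e1
    rw [QuadraticAlgebra.algebraMap_im, QuadraticAlgebra.im_mul] at e2
    have e3 : (w : QE a).re = 0 ∨ (w : QE a).im = 0 := by
      have : 2 * ((w : QE a).re * (w : QE a).im) = 0 := by linear_combination -e2
      exact mul_eq_zero.1 ((mul_eq_zero.1 this).resolve_left h2)
    rcases e3 with e3 | e3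
    · -- `u = a y²`
      left
      have hy : (w : QE a).im ≠ 0 := by
        intro e
        apply u.ne_zero
        rw [e1, e3, e]
        ring
      have m1 : u * a ∈ sqs F := by
        refine mem_sqs.2 ⟨a * Units.mk0 _ hy, Units.ext ?_⟩
        rw [Units.val_mul, Units.val_pow_eq_pow_val, Units.val_mul, Units.val_mk0, e1, e3]
        ring
      refine ⟨m1, fun m2 => ha ?_⟩
      exact (Subgroup.mul_mem_cancel_left _ m2).1 m1
    · right
      have hx : (w : QE a).re ≠ 0 := by
        intro e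
        apply u.ne_zero
        rw [e1, e3, e]
        ring
      have m1 : u ∈ sqs F := by
        refine mem_sqs.2 ⟨Units.mk0 _ hx, Units.ext ?_⟩
        rw [Units.val_pow_eq_pow_val, Units.val_mk0, e1, e3]
        ring
      exact ⟨m1, fun m2 => ha ((Subgroup.mul_mem_cancel_left _ m1).1 m2)⟩

theorem sqClasses_model (h2 : (2 : F) ≠ 0) :
    2 * sqClasses (QE a) = sqClasses F * (sqs F).relIndex (normGroup a) := by
  have h1 : sqs (QE a) ≤ (inc a).range ⊔ sqs (QE a) := le_sup_right
  have h3 : sqClasses (QE a) =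
      ((sqs (QE a)).comap (inc a)).index * (sqs F).relIndex (normGroup a) := by
    rw [sqClasses, ← Subgroup.relIndex_mul_index h1, Subgroup.relIndex_sup_right,
      Subgroup.index_comap, ← comap_nrm, Subgroup.index_comap, range_nrm]
  rw [h3, ← two_index a h2]
  ring

end model

/-- **The number of square classes of a quadratic extension.** -/
theorem sqClasses_quadratic {F : Type*} [Field F] (h2 : (2 : F) ≠ 0) {a : Fˣ}
    (ha : normGroup a ≠ ⊤) (K : Type*) [Field K] [Algebra F K] (hd : Module.finrank F K = 2)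
    (hK : IsSquare (algebraMap F K a)) :
    2 * sqClasses K = sqClasses F * (sqs F).relIndex (normGroup a) := by
  have hns : ∀ r : F, r ^ 2 ≠ (a : F) := by
    intro r hr
    apply ha
    rw [eq_top_iff]
    intro c _
    have hr0 : r ≠ 0 := by
      rintro rfl
      exact a.ne_zero (by rw [← hr]; ring)
    refine ⟨((c : F) + 1) / 2, ((c : F) - 1) / (2 * r), ?_⟩
    rw [← hr]
    field_simp
    ring
  have : Fact (∀ r : F, r ^ 2 ≠ (a : F) + 0 * r) := ⟨fun r => by
    rw [zero_mul, add_zero]
    exact hns r⟩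
  rw [← sqClasses_model a h2]
  congr 1
  obtain ⟨α, hα⟩ := hK
  have hα' : α * α = (a : F) • (1 : K) + (0 : F) • α := by
    rw [zero_smul, add_zero, ← hα, Algebra.algebraMap_eq_smul_one]
  obtain ⟨f, -⟩ : ∃ f : QE a →ₐ[F] K, True := ⟨QuadraticAlgebra.lift ⟨α, hα'⟩, trivial⟩
  have hinj : Function.Injective f := f.toRingHom.injective
  have hfin : Module.Finite F K := Module.finite_of_finrank_pos (by rw [hd]; norm_num)
  have hsurj : Function.Surjective f := by
    have e1 : Module.finrank F (QE a) = Module.finrank F K := by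
      rw [hd]
      exact QuadraticAlgebra.finrank_eq_two _ _
    exact (LinearMap.injective_iff_surjective_of_finrank_eq_finrank e1
      (f := f.toLinearMap)).1 hinj
  exact (sqClasses_congr (AlgEquiv.ofBijective f ⟨hinj, hsurj⟩).toRingEquiv).symm

end Pool.Agent.H836.HC
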